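import Mathlib

/-!
Zeros of the gcd recursion `a_p(n) = |a_p(n-1) - gcd(a_p(n-1), n^p - 1)|`.

If `a_p(N) = 0` and no gcd different from `1` occurs at the indices `M+1, ..., N`, where `M` is
small enough compared with `N` (namely `1 + M + ... + M^(p-1) + M <= N`), then `N` is prime, all
prime factors of `q_p(N)` are at least `N + 2`, and `q_p(N)` has at most `max(1, p-2)` prime
factors.  For `p = 2, 3` this says that `q_p(N)` is prime.
-/

namespace Pool.Agent.Results.MP_e7655a_nt.LateGcd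

open Finset

/-- The recursion `a_p(1) = 1`, `a_p(n) = |a_p(n-1) - gcd(a_p(n-1), n^p-1)|` for `n >= 2`
(the value at index `0` is a placeholder and is never used). -/
def a (p : ℕ) : ℕ → ℕ
  | 0 => 0
  | 1 => 1
  | n + 2 =>
      ((a p (n + 1) : ℤ) - (Nat.gcd (a p (n + 1)) ((n + 2) ^ p - 1) : ℤ)).natAbs

/-- `q_p(n) = ((n+1)^p - 1)/n`. -/
def q (p n : ℕ) : ℕ := ((n + 1) ^ p - 1) / n

lemma geom_mul (p n : ℕ) : n * ∑ k ∈ range p, (n + 1) ^ k = (n + 1) ^ p - 1 := by
  have h := Nat.geomSum_eq (m := n + 1) (n := p)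
  rcases Nat.eq_zero_or_pos n with rfl | hn
  · simp
  · have h2 := mul_geom_sum ((n : ℤ) + 1) p
    have h3 : ((n + 1) ^ p - 1 : ℕ) = (((n : ℤ) + 1) ^ p - 1) := by
      have : 1 ≤ (n + 1) ^ p := Nat.one_le_pow _ _ (by omega)
      push_cast [Nat.cast_sub this]
      ring
    have h4 : ((n * ∑ k ∈ range p, (n + 1) ^ k : ℕ) : ℤ) = (((n + 1) ^ p - 1 : ℕ) : ℤ) := by
      rw [h3, ← h2]
      push_cast
      ring
    exact_mod_cast h4

lemma q_eq (p n : ℕ) (hn : 1 ≤ n) : q p n = ∑ k ∈ range p, (n + 1) ^ k := by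
  unfold q
  rw [← geom_mul]
  exact Nat.mul_div_cancel_left _ hn

lemma mul_q (p n : ℕ) (hn : 1 ≤ n) : n * q p n = (n + 1) ^ p - 1 := by
  rw [q_eq p n hn, geom_mul]

lemma a_succ (p m : ℕ) (hm : 2 ≤ m) :
    a p m = ((a p (m - 1) : ℤ) - (Nat.gcd (a p (m - 1)) (m ^ p - 1) : ℤ)).natAbs := by
  obtain ⟨k, rfl⟩ : ∃ k, m = k + 2 := ⟨m - 2, by omega⟩
  rfl

/-- Along a stretch of trivial gcds that ends in a zero, the values are `N - m`. -/
lemma a_eq (p N M : ℕ) (hp : 2 ≤ p) (hM : 1 ≤ M) (hMN : M < N) (hzero : a p N = 0)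
    (hgcd : ∀ m, M < m → m ≤ N → Nat.gcd (a p (m - 1)) (m ^ p - 1) = 1) :
    ∀ j, M + j < N → a p (N - 1 - j) = j + 1 := by
  intro j
  induction j with
  | zero =>
    intro _
    have h := a_succ p N (by omega)
    rw [hgcd N hMN le_rfl, hzero] at h
    simp only [Nat.sub_zero]
    omega
  | succ j ih =>
    intro hj
    have ih' := ih (by omega)
    have hm2 : 2 ≤ N - 1 - j := by omega
    have h := a_succ p (N - 1 - j) hm2
    have hg := hgcd (N - 1 - j) (by omega) (by omega)
    rw [hg, ih'] at h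
    have he : N - 1 - j - 1 = N - 1 - (j + 1) := by omega
    rw [he] at h hg
    rcases Nat.eq_zero_or_pos (a p (N - 1 - (j + 1))) with h0 | h0
    · exfalso
      rw [h0, Nat.gcd_zero_left] at hg
      have h4 : 2 ^ 2 ≤ (N - 1 - j) ^ p :=
        (Nat.pow_le_pow_left hm2 2).trans (Nat.pow_le_pow_right (by omega) hp)
      omega
    · omega

/-- Every prime factor of `N * q_p(N)` exceeds `N - M`. -/
lemma factor_large (p N M : ℕ) (hp : 2 ≤ p) (hM : 1 ≤ M) (hMN : M < N) (hzero : a p N = 0)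
    (hgcd : ∀ m, M < m → m ≤ N → Nat.gcd (a p (m - 1)) (m ^ p - 1) = 1)
    (r : ℕ) (hr : r.Prime) (hdvd : r ∣ N * q p N) : N - M < r := by
  by_contra hlt
  push Not at hlt
  have hr2 := hr.two_le
  have h1 := a_eq p N M hp hM hMN hzero hgcd (r - 1) (by omega)
  have h2 := hgcd (N - r + 1) (by omega) (by omega)
  have h3 : N - r + 1 - 1 = N - 1 - (r - 1) := by omega
  rw [h3, h1] at h2
  have h4 : r - 1 + 1 = r := by omega
  rw [h4] at h2
  rw [mul_q p N (by omega)] at hdvd
  have h5 : (N - r + 1) ^ p ≡ (N + 1) ^ p [MOD r] := by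
    apply Nat.ModEq.pow
    have : N + 1 = (N - r + 1) + r := by omega
    rw [this]
    exact (Nat.ModEq.symm (by simp [Nat.ModEq]))
  have h6 : 1 ≤ (N + 1) ^ p := Nat.one_le_pow _ _ (by omega)
  have h7 : 1 ≤ (N - r + 1) ^ p := Nat.one_le_pow _ _ (by omega)
  have h8 : 1 ≡ (N + 1) ^ p [MOD r] := (Nat.modEq_iff_dvd' h6).2 hdvd
  have h9 : r ∣ (N - r + 1) ^ p - 1 := (Nat.modEq_iff_dvd' h7).1 (h8.trans h5.symm)
  have h10 : r ∣ 1 := h2 ▸ Nat.dvd_gcd (dvd_refl r) h9
  exact hr.one_lt.ne' (Nat.dvd_one.1 h10)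

/-- Converse: if `a_p(M) = N - M` and no prime `<= N - M` divides `N * q_p(N)`, then the values
after `M` decrease by one at each step, down to the zero at `N`. -/
lemma descend (p N M : ℕ) (hM : 1 ≤ M) (hMN : M < N) (haM : a p M = N - M)
    (hfac : ∀ r, r.Prime → r ∣ N * q p N → N - M < r) :
    ∀ j, M + j ≤ N → a p (M + j) = N - M - j ∧
      (1 ≤ j → Nat.gcd (a p (M + j - 1)) ((M + j) ^ p - 1) = 1) := by
  intro j
  induction j with
  | zero => intro _; simp [haM]
  | succ j ih =>
    intro hj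
    obtain ⟨ih1, -⟩ := ih (by omega)
    have hg : Nat.gcd (a p (M + (j + 1) - 1)) ((M + (j + 1)) ^ p - 1) = 1 := by
      have he : M + (j + 1) - 1 = M + j := by omega
      rw [he, ih1]
      by_contra hne
      obtain ⟨r, hr, hrd⟩ := Nat.exists_prime_and_dvd hne
      have h1 : r ∣ N - M - j := hrd.trans (Nat.gcd_dvd_left _ _)
      have h2 : r ∣ (M + (j + 1)) ^ p - 1 := hrd.trans (Nat.gcd_dvd_right _ _)
      have h3 : r ≤ N - M - j := Nat.le_of_dvd (by omega) h1
      have h5 : (M + (j + 1)) ^ p ≡ (N + 1) ^ p [MOD r] := by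
        apply Nat.ModEq.pow
        obtain ⟨c, hc⟩ := h1
        have : N + 1 = (M + (j + 1)) + r * c := by omega
        rw [this]
        simp [Nat.ModEq]
      have h6 : 1 ≤ (N + 1) ^ p := Nat.one_le_pow _ _ (by omega)
      have h7 : 1 ≤ (M + (j + 1)) ^ p := Nat.one_le_pow _ _ (by omega)
      have h8 : 1 ≡ (M + (j + 1)) ^ p [MOD r] := (Nat.modEq_iff_dvd' h7).2 h2
      have h9 : r ∣ (N + 1) ^ p - 1 := (Nat.modEq_iff_dvd' h6).1 (h8.trans h5)
      rw [← mul_q p N (by omega)] at h9
      have := hfac r hr h9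
      omega
    refine ⟨?_, fun _ => hg⟩
    have h := a_succ p (M + (j + 1)) (by omega)
    rw [hg] at h
    have he : M + (j + 1) - 1 = M + j := by omega
    rw [he, ih1] at h
    omega

lemma geom_lt (x : ℕ) (hx : 1 ≤ x) : ∀ p, 1 ≤ p →
    (∑ k ∈ range p, x ^ k ≤ (x + 1) ^ (p - 1)) ∧
      (3 ≤ p → ∑ k ∈ range p, x ^ k < (x + 1) ^ (p - 1)) := by
  intro p hp
  induction p, hp using Nat.le_induction with
  | base => simp
  | succ p hp ih =>
    have hs : ∑ k ∈ range (p + 1), x ^ k = x * ∑ k ∈ range p, x ^ k + 1 := by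
      rw [Finset.sum_range_succ', Finset.mul_sum]
      simp [pow_succ, mul_comm]
    have hpow : (x + 1) ^ (p + 1 - 1) = x * (x + 1) ^ (p - 1) + (x + 1) ^ (p - 1) := by
      obtain ⟨t, rfl⟩ : ∃ t, p = t + 1 := ⟨p - 1, by omega⟩
      simp only [Nat.add_sub_cancel]
      ring
    have h1 : x * ∑ k ∈ range p, x ^ k ≤ x * (x + 1) ^ (p - 1) := Nat.mul_le_mul_left _ ih.1
    have h2 : 1 ≤ (x + 1) ^ (p - 1) := Nat.one_le_pow _ _ (by omega)
    refine ⟨?_, ?_⟩
    · rw [hs, hpow]; omega
    · intro h3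
      have h4 : 1 < (x + 1) ^ (p - 1) := Nat.one_lt_pow (by omega) (by omega)
      rw [hs, hpow]; omega

lemma pow_length_le (B : ℕ) : ∀ l : List ℕ, (∀ r ∈ l, B ≤ r) → B ^ l.length ≤ l.prod := by
  intro l
  induction l with
  | nil => simp
  | cons r l ih =>
    intro h
    have h1 := ih (fun s hs => h s (List.mem_cons_of_mem _ hs))
    have h2 := h r (List.mem_cons_self)
    rw [List.length_cons, List.prod_cons, pow_succ, mul_comm]
    exact Nat.mul_le_mul h2 h1

/-- A number `n > 1` all of whose prime factors exceed `D`, with `n < (D+1)^2`, is prime. -/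
lemma prime_of_large (n D : ℕ) (hn : 1 < n) (h : ∀ r, r.Prime → r ∣ n → D < r)
    (hlt : n < (D + 1) ^ 2) : n.Prime := by
  by_contra hcomp
  have h1 := Nat.minFac_sq_le_self (by omega : 0 < n) hcomp
  have h2 := h n.minFac (Nat.minFac_prime (by omega)) (Nat.minFac_dvd n)
  have h3 : (D + 1) ^ 2 ≤ n.minFac ^ 2 := Nat.pow_le_pow_left h2 2
  omega

/-- Consequences for a zero all of whose nontrivial gcds occur at indices `<= M`. -/
lemma consequences (p : ℕ) (hp : p.Prime) (N M : ℕ) (hM : 1 ≤ M) (hMN : M < N)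
    (hzero : a p N = 0)
    (hgcd : ∀ m, M < m → m ≤ N → Nat.gcd (a p (m - 1)) (m ^ p - 1) = 1) :
    (p = 2 → N + 2 < (N - M + 1) ^ 2 → N.Prime ∧ (N + 2).Prime) ∧
    ((∑ k ∈ Finset.range p, M ^ k) + M ≤ N →
      N.Prime ∧ (∀ r, r.Prime → r ∣ q p N → N + 2 ≤ r) ∧
      (q p N).primeFactorsList.length ≤ max 1 (p - 2) ∧
      (p ≤ 3 → (q p N).Prime)) := by
  have hp2 := hp.two_le
  have hA := factor_large p N M hp2 hM hMN hzero hgcd
  refine ⟨?_, ?_⟩
  · intro hp' hlt
    subst hp'
    have hq : q 2 N = N + 2 := by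
      rw [q_eq 2 N (by omega)]
      simp [Finset.sum_range_succ]
      omega
    refine ⟨prime_of_large N (N - M) (by omega)
        (fun r hr hd => hA r hr (hd.trans (dvd_mul_right _ _))) (by omega),
      prime_of_large (N + 2) (N - M) (by omega)
        (fun r hr hd => hA r hr ?_) (by omega)⟩
    rw [hq]
    exact hd.trans (dvd_mul_left _ _)
  intro hsum
  -- `N >= 2 M + 1`
  have hge : M + 1 ≤ ∑ k ∈ Finset.range p, M ^ k := by
    calc M + 1 = ∑ k ∈ Finset.range 2, M ^ k := by simp [Finset.sum_range_succ]; ring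
      _ ≤ _ := Finset.sum_le_sum_of_subset (Finset.range_mono hp2)
  have hN1 : 1 ≤ N := by omega
  have hNprime : N.Prime := by
    by_contra hcomp
    have hN2 : 2 ≤ N := by omega
    have h1 := Nat.minFac_sq_le_self (by omega : 0 < N) hcomp
    have h2 := hA N.minFac (Nat.minFac_prime (by omega))
      ((Nat.minFac_dvd N).trans (dvd_mul_right _ _))
    have h3 : N + 1 ≤ 2 * N.minFac := by omega
    nlinarith
  have hqs : q p N = ∑ k ∈ Finset.range p, (N + 1) ^ k := q_eq p N hN1
  have hfac : ∀ r, r.Prime → r ∣ q p N → N + 2 ≤ r := by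
    intro r hr hd
    have hbig := hA r hr (hd.trans (dvd_mul_left _ _))
    by_contra hlt
    push Not at hlt
    rcases Nat.lt_or_ge N r with h1 | h1
    · -- `r = N + 1`
      have hrN : r = N + 1 := by omega
      have h2 : r ∣ (N + 1) ^ p - 1 := by
        rw [← mul_q p N hN1]; exact hd.trans (dvd_mul_left _ _)
      have h3 : r ∣ (N + 1) ^ p := by
        rw [hrN]; exact dvd_pow_self _ (by omega)
      have h4 : 1 ≤ (N + 1) ^ p := Nat.one_le_pow _ _ (by omega)
      have h5 : r ∣ 1 := by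
        have := (Nat.dvd_sub h3 h2)
        rwa [Nat.sub_sub_self h4] at this
      exact hr.one_lt.ne' (Nat.dvd_one.1 h5)
    · -- `r = N - i` with `i < M`
      obtain ⟨i, hi⟩ : ∃ i, N = i + r := ⟨N - r, by omega⟩
      have hiM : i + 1 ≤ M := by omega
      have hmod : (∑ k ∈ Finset.range p, (N + 1) ^ k) ≡
          (∑ k ∈ Finset.range p, (i + 1) ^ k) [MOD r] := by
        apply Nat.ModEq.sum
        intro k _
        apply Nat.ModEq.pow
        have : N + 1 = (i + 1) + r := by omega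
        rw [this]
        simp [Nat.ModEq]
      have hdi : r ∣ ∑ k ∈ Finset.range p, (i + 1) ^ k := by
        rw [hqs] at hd
        exact (hmod.dvd_iff (dvd_refl r)).1 hd
      have hle : ∑ k ∈ Finset.range p, (i + 1) ^ k ≤ ∑ k ∈ Finset.range p, M ^ k :=
        Finset.sum_le_sum (fun k _ => Nat.pow_le_pow_left hiM k)
      have hpos : 0 < ∑ k ∈ Finset.range p, (i + 1) ^ k := by
        apply Finset.sum_pos (fun k _ => by positivity)
        exact ⟨0, Finset.mem_range.2 (by omega)⟩
      have := Nat.le_of_dvd hpos hdi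
      omega
  have hqpos : q p N ≠ 0 := by
    intro h0
    have := hfac 2 Nat.prime_two (by rw [h0]; exact dvd_zero _)
    omega
  have hpow : (N + 2) ^ (q p N).primeFactorsList.length ≤ q p N := by
    have := pow_length_le (N + 2) (q p N).primeFactorsList (fun r hr =>
      hfac r (Nat.prime_of_mem_primeFactorsList hr) (Nat.dvd_of_mem_primeFactorsList hr))
    rwa [Nat.prod_primeFactorsList hqpos] at this
  have hlen : (q p N).primeFactorsList.length ≤ max 1 (p - 2) := by
    have hb := geom_lt (N + 1) (by omega) p (by omega)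
    rw [← hqs] at hb
    rcases Nat.lt_or_ge p 3 with h3 | h3
    · have hp' : p = 2 := by omega
      subst hp'
      have h5 : (N + 2) ^ (q 2 N).primeFactorsList.length ≤ (N + 2) ^ 1 := hpow.trans hb.1
      have := (Nat.pow_le_pow_iff_right (by omega)).1 h5
      exact this.trans (le_max_left _ _)
    · have h5 : (N + 2) ^ (q p N).primeFactorsList.length < (N + 2) ^ (p - 1) :=
        lt_of_le_of_lt hpow (hb.2 h3)
      have := (Nat.pow_lt_pow_iff_right (by omega)).1 h5
      exact le_trans (by omega) (le_max_right _ _)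
  refine ⟨hNprime, hfac, hlen, ?_⟩
  intro hp3
  have hq1 : q p N ≠ 1 := by
    rw [hqs]
    have : ∑ k ∈ Finset.range 2, (N + 1) ^ k ≤ ∑ k ∈ Finset.range p, (N + 1) ^ k :=
      Finset.sum_le_sum_of_subset (Finset.range_mono hp2)
    simp [Finset.sum_range_succ] at this
    omega
  have hlen1 : (q p N).primeFactorsList.length ≤ 1 := by
    refine hlen.trans ?_
    apply max_le le_rfl
    omega
  -- a number `> 1` with at most one prime factor is prime
  have hlen2 : (q p N).primeFactorsList.length = 1 := by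
    have hne : (q p N).primeFactorsList ≠ [] := by
      intro hnil
      have := (Nat.primeFactorsList_eq_nil _).1 hnil
      omega
    have := List.length_pos_iff.2 hne
    omega
  obtain ⟨r, hr⟩ := List.length_eq_one_iff.1 hlen2
  have hprod := Nat.prod_primeFactorsList hqpos
  rw [hr] at hprod
  simp at hprod
  have hrp : r.Prime := Nat.prime_of_mem_primeFactorsList (n := q p N) (by rw [hr]; simp)
  rw [← hprod]
  exact hrp

/-- **Main result.** Let `p` be a prime and `1 <= M < N`.

(Criterion) `N` is a zero of `a_p` and all the gcds taken at the indices `m` with `M < m <= N` are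
equal to `1` if and only if `a_p(M) = N - M` and every prime factor of `N * q_p(N)` is larger
than `N - M`.

(Consequences) If `N` is such a zero, then:
* if `p = 2` and `N + 2 < (N - M + 1)^2`, then `N` and `N + 2` are both prime;
* if `(1 + M + ... + M^(p-1)) + M <= N`, then `N` is prime, every prime factor of `q_p(N)` is at
  least `N + 2`, the number of prime factors of `q_p(N)` (counted with multiplicity) is at most
  `max 1 (p-2)`, and `q_p(N)` is prime when `p <= 3`. -/
theorem result (p : ℕ) (hp : p.Prime) (N M : ℕ) (hM : 1 ≤ M) (hMN : M < N) :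
    ((a p N = 0 ∧ ∀ m, M < m → m ≤ N → Nat.gcd (a p (m - 1)) (m ^ p - 1) = 1) ↔
      (a p M = N - M ∧ ∀ r, r.Prime → r ∣ N * q p N → N - M < r)) ∧
    ((a p N = 0 ∧ ∀ m, M < m → m ≤ N → Nat.gcd (a p (m - 1)) (m ^ p - 1) = 1) →
      (p = 2 → N + 2 < (N - M + 1) ^ 2 → N.Prime ∧ (N + 2).Prime) ∧
      ((∑ k ∈ Finset.range p, M ^ k) + M ≤ N →
        N.Prime ∧ (∀ r, r.Prime → r ∣ q p N → N + 2 ≤ r) ∧
        (q p N).primeFactorsList.length ≤ max 1 (p - 2) ∧
        (p ≤ 3 → (q p N).Prime))) := by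
  refine ⟨⟨?_, ?_⟩, ?_⟩
  · rintro ⟨hzero, hgcd⟩
    refine ⟨?_, factor_large p N M hp.two_le hM hMN hzero hgcd⟩
    have h := a_eq p N M hp.two_le hM hMN hzero hgcd (N - 1 - M) (by omega)
    have he : N - 1 - (N - 1 - M) = M := by omega
    rw [he] at h
    omega
  · rintro ⟨haM, hfac⟩
    have hd := descend p N M hM hMN haM hfac
    refine ⟨?_, ?_⟩
    · have := (hd (N - M) (by omega)).1
      have he : M + (N - M) = N := by omega
      rw [he] at this
      omega
    · intro m hm1 hm2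
      have := (hd (m - M) (by omega)).2 (by omega)
      have he : M + (m - M) = m := by omega
      rwa [he] at this
  · rintro ⟨hzero, hgcd⟩
    exact consequences p hp N M hM hMN hzero hgcd

end Pool.Agent.Results.MP_e7655a_nt.LateGcd
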