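import Pool.Agent.Results.MP_e7655a_nt.LateGcd

/-!
The case `p = 2`.  Let `N0 < N` be consecutive zeros of `a_2` and let `H` be the number of
nontrivial gcds between them.  As long as `y = a_2(m) + m` and `y + 2` are not both prime, the
next nontrivial gcd (or the zero itself) comes within `N0 + 1` steps, because the least prime
factor of `y (y + 2)` is at most `N0 + 1`.  So a zero `N` for which `N` and `N + 2` are not both
prime satisfies `N < (H + 2) (N0 + 1)`.
-/

namespace Pool.Agent.Results.MP_e7655a_nt.FewGcds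

open Finset
open Pool.Agent.Results.MP_e7655a_nt.LateGcd (a a_succ)

private lemma start (N₀ : ℕ) (h1 : 1 ≤ N₀) (h0 : a 2 N₀ = 0) :
    a 2 (N₀ + 1) + (N₀ + 1) = (N₀ + 1) ^ 2 + N₀ := by
  have h := a_succ 2 (N₀ + 1) (by omega)
  rw [Nat.add_sub_cancel, h0, Nat.gcd_zero_left] at h
  have h2 : 1 ≤ (N₀ + 1) ^ 2 := Nat.one_le_pow _ _ (by omega)
  omega

private lemma step (m : ℕ) (hm : 2 ≤ m) (h0 : a 2 (m - 1) ≠ 0) :
    a 2 m + Nat.gcd (a 2 (m - 1)) (m ^ 2 - 1) = a 2 (m - 1) := by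
  have h := a_succ 2 m hm
  have h1 : Nat.gcd (a 2 (m - 1)) (m ^ 2 - 1) ≤ a 2 (m - 1) :=
    Nat.gcd_le_left _ (Nat.pos_of_ne_zero h0)
  omega

private lemma gcd_pos' (m : ℕ) (h0 : a 2 (m - 1) ≠ 0) :
    1 ≤ Nat.gcd (a 2 (m - 1)) (m ^ 2 - 1) :=
  Nat.gcd_pos_of_pos_left _ (Nat.pos_of_ne_zero h0)

/-- A prime dividing `a (m-1)` and `m^2 - 1` divides `y (y+2)`, where `y = a (m-1) + (m-1)`. -/
private lemma dvd_of_dvd_gcd (r b m : ℕ) (hm : 1 ≤ m) (h1 : r ∣ b) (h2 : r ∣ m ^ 2 - 1) :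
    r ∣ (b + (m - 1)) * (b + (m - 1) + 2) := by
  obtain ⟨k, rfl⟩ : ∃ k, m = k + 1 := ⟨m - 1, by omega⟩
  rw [Nat.add_sub_cancel]
  have h3 : (k + 1) ^ 2 - 1 = k * (k + 2) := by
    have : (k + 1) ^ 2 = k * (k + 2) + 1 := by ring
    omega
  rw [h3] at h2
  have h4 : (b + k) * (b + k + 2) = b * (b + 2 * k + 2) + k * (k + 2) := by ring
  rw [h4]
  exact dvd_add (h1.mul_right _) h2

private lemma dvd_gcd_of_dvd (r b m : ℕ) (hm : 1 ≤ m) (h1 : r ∣ b)
    (h2 : r ∣ (b + (m - 1)) * (b + (m - 1) + 2)) : r ∣ m ^ 2 - 1 := by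
  obtain ⟨k, rfl⟩ : ∃ k, m = k + 1 := ⟨m - 1, by omega⟩
  rw [Nat.add_sub_cancel] at h2
  have h3 : (k + 1) ^ 2 - 1 = k * (k + 2) := by
    have : (k + 1) ^ 2 = k * (k + 2) + 1 := by ring
    omega
  rw [h3]
  have h4 : (b + k) * (b + k + 2) = b * (b + 2 * k + 2) + k * (k + 2) := by ring
  rw [h4] at h2
  exact (Nat.dvd_add_right (h1.mul_right _)).1 h2

private lemma small_factor (N₀ y : ℕ) (hy : 2 ≤ y) (hle : y ≤ (N₀ + 1) ^ 2 + N₀)
    (hbad : ¬ (y.Prime ∧ (y + 2).Prime)) :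
    ∃ r, r.Prime ∧ r ≤ N₀ + 1 ∧ r ∣ y * (y + 2) := by
  have key : ∀ c : ℕ, 2 ≤ c → c ≤ y + 2 → ¬ c.Prime → c.minFac ≤ N₀ + 1 := by
    intro c hc hcy hcp
    have h1 := Nat.minFac_sq_le_self (by omega : 0 < c) hcp
    by_contra hlt
    push Not at hlt
    have h2 : (N₀ + 2) ^ 2 ≤ c.minFac ^ 2 := Nat.pow_le_pow_left hlt 2
    nlinarith
  by_cases hyp : y.Prime
  · have h2 : ¬ (y + 2).Prime := fun h => hbad ⟨hyp, h⟩
    exact ⟨(y + 2).minFac, Nat.minFac_prime (by omega), key _ (by omega) le_rfl h2,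
      (Nat.minFac_dvd _).mul_left _⟩
  · exact ⟨y.minFac, Nat.minFac_prime (by omega), key _ hy (by omega) hyp,
      (Nat.minFac_dvd _).mul_right _⟩

section

variable (N₀ N : ℕ) (h1 : 1 ≤ N₀) (h0 : a 2 N₀ = 0) (hN : a 2 N = 0)
  (hne : ∀ m, N₀ < m → m < N → a 2 m ≠ 0)

include h1 h0 hne

private lemma y_le : ∀ j, N₀ + 1 + j ≤ N → a 2 (N₀ + 1 + j) + (N₀ + 1 + j) ≤ (N₀ + 1) ^ 2 + N₀ := by
  intro j
  induction j with
  | zero => intro _; rw [add_zero, start N₀ h1 h0]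
  | succ j ih =>
    intro hj
    have ih' := ih (by omega)
    have hz := hne (N₀ + 1 + j) (by omega) (by omega)
    have h2 := step (N₀ + 1 + (j + 1)) (by omega) (by simpa using hz)
    have h3 := gcd_pos' (N₀ + 1 + (j + 1)) (by simpa using hz)
    have h4 : N₀ + 1 + (j + 1) - 1 = N₀ + 1 + j := by omega
    rw [h4] at h2 h3
    omega

include hN

private lemma le_add (M : ℕ) (hM : N₀ + 1 ≤ M) : ∀ j, M + j ≤ N → a 2 (M + j) + j ≤ a 2 M := by
  intro j
  induction j with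
  | zero => intro _; simp
  | succ j ih =>
    intro hj
    have ih' := ih (by omega)
    have hz := hne (M + j) (by omega) (by omega)
    have h2 := step (M + (j + 1)) (by omega) (by simpa using hz)
    have h3 := gcd_pos' (M + (j + 1)) (by simpa using hz)
    have h4 : M + (j + 1) - 1 = M + j := by omega
    rw [h4] at h2 h3
    omega

/-- The next nontrivial gcd after `M`. -/
private lemma next_gcd (M r : ℕ) (hM : N₀ + 1 ≤ M) (hMN : M < N) (hr : r.Prime)
    (hrd : r ∣ (a 2 M + M) * (a 2 M + M + 2)) (hra : r ≤ a 2 M) :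
    ∃ m, M < m ∧ m ≤ M + r ∧ m ≤ N ∧ Nat.gcd (a 2 (m - 1)) (m ^ 2 - 1) ≠ 1 := by
  by_contra hcon
  push Not at hcon
  have hrun : ∀ j, j < r → M + j < N ∧ a 2 (M + j) + j = a 2 M := by
    intro j
    induction j with
    | zero => intro _; exact ⟨by omega, by simp⟩
    | succ j ih =>
      intro hj
      obtain ⟨ih1, ih2⟩ := ih (by omega)
      have hz := hne (M + j) (by omega) ih1
      have h2 := step (M + (j + 1)) (by omega) (by simpa using hz)
      have h3 := hcon (M + (j + 1)) (by omega) (by omega) (by omega)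
      have h4 : M + (j + 1) - 1 = M + j := by omega
      rw [h4] at h2 h3
      rw [h3] at h2
      have h5 : a 2 (M + (j + 1)) + (j + 1) = a 2 M := by omega
      refine ⟨?_, h5⟩
      by_contra hge
      have h6 : M + (j + 1) = N := by omega
      rw [h6, hN] at h5
      omega
  -- choose `j < r` with `a M - j` divisible by `r`
  set j := a 2 M % r with hj
  have hjr : j < r := Nat.mod_lt _ hr.pos
  obtain ⟨h2, h3⟩ := hrun j hjr
  have h4 : r ∣ a 2 (M + j) := by
    have h5 : a 2 (M + j) = a 2 M - a 2 M % r := by omega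
    rw [h5]
    exact Nat.dvd_sub_mod _
  have h6 : r ∣ (M + j + 1) ^ 2 - 1 := by
    apply dvd_gcd_of_dvd r (a 2 (M + j)) (M + j + 1) (by omega) h4
    have h7 : a 2 (M + j) + (M + j + 1 - 1) = a 2 M + M := by omega
    rw [h7]
    exact hrd
  have h8 := hcon (M + j + 1) (by omega) (by omega) (by omega)
  have h9 : M + j + 1 - 1 = M + j := by omega
  rw [h9] at h8
  have h10 := Nat.dvd_gcd h4 h6
  rw [h8] at h10
  exact hr.one_lt.ne' (Nat.dvd_one.1 h10)

/-- If `y` and `y + 2` are prime, there is no further nontrivial gcd and `N = y`. -/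
private lemma twin (M : ℕ) (hM : N₀ + 1 ≤ M) (hMN : M ≤ N) (hy : (a 2 M + M).Prime)
    (hy2 : (a 2 M + M + 2).Prime) : N = a 2 M + M := by
  have hrun : ∀ j, M + j ≤ N → a 2 (M + j) + (M + j) = a 2 M + M := by
    intro j
    induction j with
    | zero => intro _; simp
    | succ j ih =>
      intro hj
      have ih' := ih (by omega)
      have hz := hne (M + j) (by omega) (by omega)
      have h2 := step (M + (j + 1)) (by omega) (by simpa using hz)
      have h4 : M + (j + 1) - 1 = M + j := by omega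
      have h3 : Nat.gcd (a 2 (M + j)) ((M + (j + 1)) ^ 2 - 1) = 1 := by
        by_contra hg
        obtain ⟨r, hr, hrd⟩ := Nat.exists_prime_and_dvd hg
        have h5 : r ∣ a 2 (M + j) := hrd.trans (Nat.gcd_dvd_left _ _)
        have h6 := dvd_of_dvd_gcd r (a 2 (M + j)) (M + (j + 1)) (by omega) h5
          (hrd.trans (Nat.gcd_dvd_right _ _))
        rw [h4, ih'] at h6
        have h7 : r ≤ a 2 (M + j) := Nat.le_of_dvd (Nat.pos_of_ne_zero hz) h5
        rcases (hr.dvd_mul).1 h6 with h8 | h8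
        · have := (Nat.prime_dvd_prime_iff_eq hr hy).1 h8
          omega
        · have := (Nat.prime_dvd_prime_iff_eq hr hy2).1 h8
          omega
      rw [h4] at h2
      rw [h3] at h2
      omega
  have h2 := hrun (N - M) (by omega)
  have h3 : M + (N - M) = N := by omega
  rw [h3, hN] at h2
  omega

end

/-- **Main result.** Let `N₀ < N` be consecutive zeros of `a_2` such that `N` and `N + 2` are not
both prime.  Then among any `N₀ + 1` consecutive indices `m` with `N₀ + 1 < m ≤ N` there is one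
whose gcd `(a_2(m-1), m^2-1)` is not `1`; hence `N < (H + 2) (N₀ + 1)`, where `H` is the number of
all indices `m` with `N₀ + 1 < m ≤ N` whose gcd is not `1`. -/
theorem result (N₀ N : ℕ) (h1 : 1 ≤ N₀) (hNN : N₀ < N) (h0 : a 2 N₀ = 0) (hN : a 2 N = 0)
    (hne : ∀ m, N₀ < m → m < N → a 2 m ≠ 0) (hbad : ¬ (N.Prime ∧ (N + 2).Prime)) :
    (∀ M, N₀ + 1 ≤ M → M + (N₀ + 1) ≤ N →
      ∃ m, M < m ∧ m ≤ M + (N₀ + 1) ∧ Nat.gcd (a 2 (m - 1)) (m ^ 2 - 1) ≠ 1) ∧
    N < (((Finset.Ioc (N₀ + 1) N).filter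
      (fun m => Nat.gcd (a 2 (m - 1)) (m ^ 2 - 1) ≠ 1)).card + 2) * (N₀ + 1) := by
  set S := (Finset.Ioc (N₀ + 1) N).filter (fun m => Nat.gcd (a 2 (m - 1)) (m ^ 2 - 1) ≠ 1)
    with hS
  -- every stretch of `N₀ + 1` indices contains a nontrivial gcd
  have key : ∀ M, N₀ + 1 ≤ M → M + (N₀ + 1) ≤ N → ∃ m ∈ S, M < m ∧ m ≤ M + (N₀ + 1) := by
    intro M hM hMN
    have hMN' : M < N := by omega
    have hz := hne M (by omega) hMN'
    have hyle : a 2 M + M ≤ (N₀ + 1) ^ 2 + N₀ := by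
      obtain ⟨j, rfl⟩ : ∃ j, M = N₀ + 1 + j := ⟨M - (N₀ + 1), by omega⟩
      exact y_le N₀ N h1 h0 hne j (by omega)
    have hnt : ¬ ((a 2 M + M).Prime ∧ (a 2 M + M + 2).Prime) := by
      rintro ⟨hy, hy2⟩
      have h2 := twin N₀ N h1 h0 hN hne M hM hMN'.le hy hy2
      rw [← h2] at hy hy2
      exact hbad ⟨hy, hy2⟩
    obtain ⟨r, hr, hrX, hrd⟩ := small_factor N₀ (a 2 M + M) (by omega) hyle hnt
    have hra : r ≤ a 2 M := by
      have h2 := le_add N₀ N h1 h0 hN hne M hM (N₀ + 1) hMN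
      omega
    obtain ⟨m, hm1, hm2, hm3, hm4⟩ := next_gcd N₀ N h1 h0 hN hne M r hM hMN' hr hrd hra
    refine ⟨m, ?_, hm1, by omega⟩
    rw [hS, Finset.mem_filter, Finset.mem_Ioc]
    exact ⟨⟨by omega, hm3⟩, hm4⟩
  refine ⟨?_, ?_⟩
  · intro M hM hMN
    obtain ⟨m, hmS, hm1, hm2⟩ := key M hM hMN
    rw [hS, Finset.mem_filter] at hmS
    exact ⟨m, hm1, hm2, hmS.2⟩
  by_contra hH
  push Not at hH
  have chain : ∀ k, k ≤ S.card + 1 → ∃ M, N₀ + 1 ≤ M ∧ M ≤ (k + 1) * (N₀ + 1) ∧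
      k ≤ (S.filter (fun m => m ≤ M)).card := by
    intro k
    induction k with
    | zero => intro _; exact ⟨N₀ + 1, le_rfl, by simp, Nat.zero_le _⟩
    | succ k ih =>
      intro hk
      obtain ⟨M, hM1, hM2, hM3⟩ := ih (by omega)
      have h2 : (k + 1) * (N₀ + 1) + (N₀ + 1) ≤ (S.card + 2) * (N₀ + 1) := by
        have : (k + 1) * (N₀ + 1) + (N₀ + 1) = (k + 2) * (N₀ + 1) := by ring
        rw [this]
        exact Nat.mul_le_mul_right _ (by omega)
      obtain ⟨m, hmS, hm1, hm2⟩ := key M hM1 (by omega)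
      refine ⟨m, by omega, ?_, ?_⟩
      · have : (k + 1 + 1) * (N₀ + 1) = (k + 1) * (N₀ + 1) + (N₀ + 1) := by ring
        omega
      · have h3 : insert m (S.filter (fun m' => m' ≤ M)) ⊆ S.filter (fun m' => m' ≤ m) := by
          intro x hx
          rcases Finset.mem_insert.1 hx with rfl | hx
          · exact Finset.mem_filter.2 ⟨hmS, le_rfl⟩
          · obtain ⟨hx1, hx2⟩ := Finset.mem_filter.1 hx
            exact Finset.mem_filter.2 ⟨hx1, by omega⟩
        have h4 : m ∉ S.filter (fun m' => m' ≤ M) := by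
          intro hx
          have := (Finset.mem_filter.1 hx).2
          omega
        have h5 := Finset.card_le_card h3
        rw [Finset.card_insert_of_notMem h4] at h5
        omega
  obtain ⟨M, -, -, hM3⟩ := chain (S.card + 1) le_rfl
  have h2 : (S.filter (fun m => m ≤ M)).card ≤ S.card := Finset.card_filter_le _ _
  omega

end Pool.Agent.Results.MP_e7655a_nt.FewGcds
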