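import Pool.Agent.Lib.H25E.Bound

/-!
Let `N0 < N` be consecutive zeros of the gcd recursion `a_p`.  All the nontrivial gcds between
them occur at indices `m` with `a_p(m) + 2m <= N0^p + C N0^(p-delta)`, so before about `N0^p / 2`.
Hence, if `2N >= N0^p + C N0^(p-delta)`, then `N` is prime, `q_p(N)` has at most `p - 1` prime
factors, and `N + 2` is prime when `p = 2`.
-/

namespace Pool.Agent.Results.MP_e7655a_nt.GcdsStopHalfway

open Pool.Agent.Results.MP_e7655a_nt.LateGcd (a q a_succ q_eq factor_large prime_of_large geom_lt)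
open Pool.Agent.Lib.H25E

lemma pow_len_le (D : ℝ) (hD : 0 ≤ D) : ∀ l : List ℕ, (∀ r ∈ l, D ≤ (r : ℝ)) →
    D ^ l.length ≤ ((l.prod : ℕ) : ℝ) := by
  intro l
  induction l with
  | nil => simp
  | cons r l ih =>
    intro h
    have h1 := ih (fun s hs => h s (List.mem_cons_of_mem _ hs))
    have h2 := h r (List.mem_cons_self)
    rw [List.length_cons, List.prod_cons, pow_succ, mul_comm, Nat.cast_mul]
    exact mul_le_mul h2 h1 (by positivity) (Nat.cast_nonneg _)

/-- **Main result.** For every prime `p` there are `C, delta > 0` such that for all consecutive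
zeros `N0 < N` of `a_p`:
* every index `m` with `N0 + 1 < m <= N` at which the gcd `(a_p(m-1), m^p - 1)` is not `1`
  satisfies `a_p(m) + 2m <= N0^p + C N0^(p-delta)`;
* if `N0^p + C N0^(p-delta) <= 2N`, then `N` is prime, all prime factors of `q_p(N)` are larger
  than `N0^(p-delta)`, there are at most `p - 1` of them (with multiplicity), and `N + 2` is prime
  when `p = 2`. -/
theorem result (p : ℕ) (hp : p.Prime) :
    ∃ C δ : ℝ, 0 < C ∧ 0 < δ ∧ ∀ N₀ N : ℕ, 1 ≤ N₀ → N₀ < N → a p N₀ = 0 → a p N = 0 →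
      (∀ m, N₀ < m → m < N → a p m ≠ 0) →
      (∀ m, N₀ + 1 < m → m ≤ N → Nat.gcd (a p (m - 1)) (m ^ p - 1) ≠ 1 →
        (a p m : ℝ) + 2 * m ≤ (N₀ : ℝ) ^ p + C * (N₀ : ℝ) ^ ((p : ℝ) - δ)) ∧
      ((N₀ : ℝ) ^ p + C * (N₀ : ℝ) ^ ((p : ℝ) - δ) ≤ 2 * N →
        N.Prime ∧ (∀ r : ℕ, r.Prime → r ∣ q p N → (N₀ : ℝ) ^ ((p : ℝ) - δ) < r) ∧
          (q p N).primeFactorsList.length ≤ p - 1 ∧ (p = 2 → (N + 2).Prime)) := by
  set E : ℝ := 3 * (2 ^ p + 1) with hE
  have hE9 : 9 ≤ E := by
    have : (4 : ℝ) ≤ 2 ^ p := by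
      calc (4 : ℝ) = 2 ^ 2 := by norm_num
        _ ≤ 2 ^ p := pow_le_pow_right₀ (by norm_num) hp.two_le
    linarith
  have hC0 : 0 < Cst p := by
    unfold Cst
    positivity
  refine ⟨Cst p + E, del p, by linarith, del_pos hp, ?_⟩
  intro N₀ N hN0 hNN h0 hN hne
  have hN0' : (1 : ℝ) ≤ N₀ := by exact_mod_cast hN0
  have hN00 : (0 : ℝ) < N₀ := by linarith
  have hp2 : (2 : ℝ) ≤ p := by exact_mod_cast hp.two_le
  have hdel := del_le_half (p := p)
  have hdel0 := del_pos hp
  set X := (N₀ : ℝ) ^ ((p : ℝ) - del p) with hX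
  have hX1 : (1 : ℝ) ≤ X := Real.one_le_rpow hN0' (by linarith)
  have hEX : 9 ≤ E * X := by nlinarith
  refine ⟨?_, ?_⟩
  · intro m hm1 hm2 hg
    have h := bound hp hN0 h0 hne (n := m) (by omega) hm2 hg
    unfold Y at h
    push_cast at h
    nlinarith
  · intro hbig
    have hbig' : (N₀ : ℝ) ^ p + Cst p * X + E * X ≤ 2 * N := by
      have : (Cst p + E) * X = Cst p * X + E * X := by ring
      linarith
    -- the last nontrivial gcd
    obtain ⟨e, he1, he2, he3, he4⟩ := exists_pred (p := p) (N0 := N₀) (n := N + 1) (by omega)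
    have hYe : (Y p e : ℝ) ≤ (N₀ : ℝ) ^ p + Cst p * X := by
      rcases he3 with he3 | ⟨he3, he5⟩
      · subst he3
        refine (start_bound hp hN0 h0).trans ?_
        have h1 : ((p : ℝ) * 2 ^ (p - 1) + 3) ≤ Cst p := by
          unfold Cst
          have : (0 : ℝ) ≤ qm p * (2 ^ kap p + 1 + 32000 * (2 ^ p + 1)) := by positivity
          linarith
        have := mul_le_mul_of_nonneg_right h1 (by linarith : 0 ≤ X)
        linarith
      · exact bound hp hN0 h0 hne he3 (by omega) he5
    have heN : e < N := by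
      rcases Nat.lt_or_ge e N with h | h
      · exact h
      · exfalso
        have : e = N := by omega
        subst this
        unfold Y at hYe
        rw [hN] at hYe
        push_cast at hYe
        linarith
    have hrun := run (p := p) hne he1 le_rfl (fun m h1 h2 => he4 m h1 (by omega)) (N - 1)
      (by omega) (by omega)
    have hstep := step (p := p) hne (n := N) (by omega) le_rfl
    have hGN : G p N = 1 := he4 N heN (by omega)
    have hae : a p e = N - e := by
      rw [hGN, hN] at hstep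
      omega
    have hYeq : Y p e = N + e := by unfold Y; omega
    rw [hYeq] at hYe
    push_cast at hYe
    have hdiff : E * X ≤ ((N - e : ℕ) : ℝ) := by
      rw [Nat.cast_sub heN.le]
      linarith
    have hlarge : ∀ r : ℕ, r.Prime → r ∣ N * q p N → E * X < r := by
      intro r hr hd
      have h1 := factor_large p N e hp.two_le (by omega) heN hN
        (fun m h1 h2 => he4 m h1 (by omega)) r hr hd
      have h2 : ((N - e : ℕ) : ℝ) < r := by exact_mod_cast h1
      linarith
    -- size of `N`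
    have hNle : (N : ℝ) ≤ (2 ^ p + 1) * (N₀ : ℝ) ^ p := by
      have h1 := sum_G (p := p) hne N (by omega) le_rfl
      rw [hN, start hN0 h0] at h1
      have h2 : 1 ≤ (N₀ + 1) ^ p := Nat.one_le_pow _ _ (by omega)
      have h3 : N ≤ (N₀ + 1) ^ p + N₀ := by omega
      have h4 : (N : ℝ) ≤ (((N₀ + 1) ^ p + N₀ : ℕ) : ℝ) := by exact_mod_cast h3
      exact h4.trans (S_le hp hN0)
    have hNpow1 : (1 : ℝ) ≤ (N₀ : ℝ) ^ p := one_le_pow₀ hN0'
    have hN2 : (N : ℝ) + 2 ≤ E * (N₀ : ℝ) ^ p := by
      have h1 : (0 : ℝ) < 2 ^ p := by positivity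
      have h2 : (2 : ℝ) ≤ 2 * (2 ^ p + 1) * (N₀ : ℝ) ^ p := by nlinarith
      calc (N : ℝ) + 2 ≤ (2 ^ p + 1) * (N₀ : ℝ) ^ p + 2 * (2 ^ p + 1) * (N₀ : ℝ) ^ p := by linarith
        _ = E * (N₀ : ℝ) ^ p := by rw [hE]; ring
    -- `X ^ 2 >= N0 ^ p` and `X ^ p >= N0 ^ (p (p-1))`
    have hX2 : (N₀ : ℝ) ^ p ≤ X ^ 2 := by
      rw [hX, ← Real.rpow_natCast, ← Real.rpow_natCast, ← Real.rpow_mul hN00.le]
      apply Real.rpow_le_rpow_of_exponent_le hN0'
      push_cast
      linarith
    have hXp : ((N₀ : ℝ) ^ p) ^ (p - 1) ≤ X ^ p := by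
      rw [hX, ← Real.rpow_natCast, ← Real.rpow_natCast, ← Real.rpow_natCast,
        ← Real.rpow_mul hN00.le, ← Real.rpow_mul hN00.le]
      apply Real.rpow_le_rpow_of_exponent_le hN0'
      rw [Nat.cast_sub hp.one_lt.le]
      push_cast
      nlinarith
    have hN1 : 1 ≤ N := by omega
    have hNprime : N.Prime := by
      by_contra hcomp
      have h1 := Nat.minFac_sq_le_self (by omega : 0 < N) hcomp
      have h2 := hlarge N.minFac (Nat.minFac_prime (by omega))
        ((Nat.minFac_dvd N).trans (dvd_mul_right _ _))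
      have h3 : ((N.minFac : ℝ)) ^ 2 ≤ N := by exact_mod_cast h1
      have h4 : (E * X) ^ 2 ≤ (N.minFac : ℝ) ^ 2 := pow_le_pow_left₀ (by positivity) h2.le 2
      have h5 : E * (N₀ : ℝ) ^ p ≤ (E * X) ^ 2 := by
        rw [mul_pow]
        have h6 : E ≤ E ^ 2 := by nlinarith
        exact mul_le_mul h6 hX2 (by positivity) (by positivity)
      linarith
    have hqpos : q p N ≠ 0 := by
      intro h00
      have := hlarge 2 Nat.prime_two (by rw [h00]; simp)
      push_cast at this
      linarith
    have hlen : (q p N).primeFactorsList.length ≤ p - 1 := by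
      by_contra hcon
      push Not at hcon
      have hlen' : p ≤ (q p N).primeFactorsList.length := by have := hp.two_le; omega
      have h1 := pow_len_le (E * X) (by positivity) (q p N).primeFactorsList (fun r hr =>
        (hlarge r (Nat.prime_of_mem_primeFactorsList hr)
          ((Nat.dvd_of_mem_primeFactorsList hr).mul_left _)).le)
      rw [Nat.prod_primeFactorsList hqpos] at h1
      have h2 : (E * X) ^ p ≤ (E * X) ^ (q p N).primeFactorsList.length :=
        pow_le_pow_right₀ (by linarith) hlen'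
      have h3 := (geom_lt (N + 1) (by omega) p hp.one_lt.le).1
      rw [← q_eq p N hN1] at h3
      have h4 : ((q p N : ℕ) : ℝ) ≤ ((N : ℝ) + 2) ^ (p - 1) := by
        have : ((q p N : ℕ) : ℝ) ≤ (((N + 1 + 1) ^ (p - 1) : ℕ) : ℝ) := by exact_mod_cast h3
        refine this.trans (le_of_eq ?_)
        push_cast
        ring
      have h5 : ((N : ℝ) + 2) ^ (p - 1) ≤ (E * (N₀ : ℝ) ^ p) ^ (p - 1) :=
        pow_le_pow_left₀ (by positivity) hN2 _
      have h6 : (E * (N₀ : ℝ) ^ p) ^ (p - 1) < (E * X) ^ p := by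
        rw [mul_pow E, mul_pow E]
        have h7 : E ^ (p - 1) < E ^ p := by
          apply pow_lt_pow_right₀ (by linarith)
          have := hp.two_le
          omega
        calc E ^ (p - 1) * ((N₀ : ℝ) ^ p) ^ (p - 1)
            < E ^ p * ((N₀ : ℝ) ^ p) ^ (p - 1) :=
              mul_lt_mul_of_pos_right h7 (by positivity)
          _ ≤ E ^ p * X ^ p := mul_le_mul_of_nonneg_left hXp (by positivity)
      linarith
    refine ⟨hNprime, ?_, hlen, ?_⟩
    · intro r hr hd
      have h1 := hlarge r hr (hd.mul_left _)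
      nlinarith
    · intro hp'
      subst hp'
      have hq2 : q 2 N = N + 2 := by
        rw [q_eq 2 N hN1]
        simp [Finset.sum_range_succ]
        omega
      rw [hq2] at hlen
      have hl1 : (N + 2).primeFactorsList.length = 1 := by
        have hne' : (N + 2).primeFactorsList ≠ [] := by
          intro hnil
          have := (Nat.primeFactorsList_eq_nil _).1 hnil
          omega
        have := List.length_pos_iff.2 hne'
        omega
      obtain ⟨r, hr⟩ := List.length_eq_one_iff.1 hl1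
      have hprod := Nat.prod_primeFactorsList (show N + 2 ≠ 0 by omega)
      rw [hr] at hprod
      simp at hprod
      have hrp : r.Prime := Nat.prime_of_mem_primeFactorsList (n := N + 2) (by rw [hr]; simp)
      rw [← hprod]
      exact hrp

end Pool.Agent.Results.MP_e7655a_nt.GcdsStopHalfway
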