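import Pool.Agent.Lib.H61G.Main

/-!
Let `N0 < N` be consecutive zeros of `a_p`, `p ≥ 3`, with `N` close to the largest possible value: `N ≥ (N0+1)^p - c N0^(p/2)`.
If `(p-2) c < 1` or `p = 3`, `c < √3`, and `N0` is large, then `N` is prime and `q_p(N)` has at most `p - 2` prime factors;
for `p = 3` both `N` and `q_3(N) = N^2 + 3N + 3` are prime.
-/

namespace Pool.Agent.Results.MP_e7655a_nt.GoodNearTop

open Pool.Agent.Results.MP_e7655a_nt.LateGcd (a q)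

/-- For a prime `p ≥ 3` and a real `c` with `(p - 2) c < 1` (for `p = 3` even `c < √3`) there is `K` such that for all
consecutive zeros `N₀ < N` of `a_p` with `N₀ ≥ K` and `N ≥ (N₀ + 1)^p - c N₀^(p/2)`: `N` is prime, `q_p(N)` has at most
`p - 2` prime factors counted with multiplicity, and `q_3(N)` is prime if `p = 3`. -/
theorem result (p : ℕ) (hp : p.Prime) (hp3 : 3 ≤ p) (c : ℝ)
    (hc : ((p : ℝ) - 2) * c < 1 ∨ (p = 3 ∧ c < Real.sqrt 3)) :
    ∃ K : ℕ, ∀ N₀ N : ℕ, K ≤ N₀ → N₀ < N → a p N₀ = 0 → a p N = 0 → (∀ m, N₀ < m → m < N → a p m ≠ 0) →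
      ((N₀ : ℝ) + 1) ^ p ≤ N + c * (N₀ : ℝ) ^ ((p : ℝ) / 2) →
      N.Prime ∧ (q p N).primeFactorsList.length ≤ p - 2 ∧ (p = 3 → (q p N).Prime) :=
  Pool.Agent.Lib.H61G.near_top p hp hp3 c hc

end Pool.Agent.Results.MP_e7655a_nt.GoodNearTop
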